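import Pool.Agent.N41.RM.Mult

/-! The rotated law at an arbitrary point for Dirichlet series with complex coefficients, and for Euler
products with complex parameters; meromorphic continuation along the horizontal half line only. -/

set_option autoImplicit false

namespace Pool.Agent.U252.RM

open Filter Topology Set ComplexConjugate Pool.Agent.N41.RM
open Pool.Agent.W187.UR (Lam cmean)
open Pool.Agent.W189.ML (ser om)

/-- the Dirichlet series with complex coefficients -/
noncomputable def cser {ι : Type} (lam : ι → ℝ) (c : ι → ℂ) (w : ℂ) : ℂ :=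
  ∑' i, c i * Complex.exp (-(w * lam i))

/-- `F` is the exponential of a Dirichlet series with complex coefficients for `Re s > A` -/
structure CDS {ι : Type} (A : ℝ) (lam : ι → ℝ) (c : ι → ℂ) (F : ℂ → ℂ) : Prop where
  lam_nonneg : ∀ i, 0 ≤ lam i
  sum : ∀ σ : ℝ, A < σ → Summable fun i => ‖c i‖ * Real.exp (-(σ * lam i))
  eq : ∀ s : ℂ, A < s.re → F s = Complex.exp (cser lam c s)

variable {ι : Type} {A : ℝ} {lam : ι → ℝ} {c : ι → ℂ} {F : ℂ → ℂ}

theorem CDS.csum (D : CDS A lam c F) {s : ℂ} (hs : A < s.re) :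
    Summable fun i => c i * Complex.exp (-(s * lam i)) := by
  refine Summable.of_norm_bounded (D.sum _ hs) fun i => ?_
  rw [norm_mul, norm_expo]

theorem CDS.ser_analytic (D : CDS A lam c F) {s : ℂ} (hs : A < s.re) :
    AnalyticAt ℂ (cser lam c) s := by
  set ρ : ℝ := (A + s.re) / 2 with hρ
  have hρ1 : A < ρ := by rw [hρ]; linarith
  have hρσ : ρ < s.re := by rw [hρ]; linarith
  have hopen : IsOpen {z : ℂ | ρ < z.re} := isOpen_lt continuous_const Complex.continuous_re
  have h1 : DifferentiableOn ℂ (cser lam c) {z : ℂ | ρ < z.re} := by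
    unfold cser
    refine Complex.differentiableOn_tsum_of_summable_norm
      (D.sum _ hρ1) (fun i => ?_) hopen (fun i z hz => ?_)
    · exact Differentiable.differentiableOn (by fun_prop)
    · rw [norm_mul, norm_expo]
      refine mul_le_mul_of_nonneg_left ?_ (norm_nonneg _)
      apply Real.exp_le_exp.2
      have hz' : ρ < z.re := hz
      have := D.lam_nonneg i
      nlinarith
  exact h1.analyticAt (hopen.mem_nhds (show ρ < s.re from hρσ))

theorem CDS.ev (D : CDS A lam c F) {s : ℂ} (hs : A < s.re) :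
    F =ᶠ[𝓝 s] fun z => Complex.exp (cser lam c z) := by
  have ho : IsOpen {z : ℂ | A < z.re} := isOpen_lt continuous_const Complex.continuous_re
  filter_upwards [ho.mem_nhds (show A < s.re from hs)] with z hz
  exact D.eq z hz

theorem CDS.analytic_right (D : CDS A lam c F) {s : ℂ} (hs : A < s.re) : AnalyticAt ℂ F s :=
  (D.ser_analytic hs).cexp.congr (D.ev hs).symm

theorem CDS.order_right (D : CDS A lam c F) {s : ℂ} (hs : A < s.re) :
    meromorphicOrderAt F s = 0 := by
  refine Pool.Agent.R409.RA.order_of_ne (D.analytic_right hs) ?_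
  rw [D.eq s hs]
  exact Complex.exp_ne_zero _

/-- the horizontal half line `{z + x : x ≥ 0}` -/
def hray (z : ℂ) : Set ℂ := (fun x : ℝ => z + x) '' Ici 0

theorem hray_preconnected (z : ℂ) : IsPreconnected (hray z) := by
  refine isPreconnected_Ici.image _ ?_
  exact Continuous.continuousOn (by fun_prop)

theorem CDS.ne_top (D : CDS A lam c F) {z : ℂ}
    (hmer : ∀ x : ℝ, 0 ≤ x → MeromorphicAt F (z + x)) {x : ℝ} (hx : 0 ≤ x) :
    meromorphicOrderAt F (z + x) ≠ ⊤ := by
  set B : ℝ := max (A - z.re + 1) 0 with hB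
  have hm : MeromorphicOn F (hray z) := by
    rintro _ ⟨y, hy, rfl⟩
    exact hmer y hy
  refine hm.meromorphicOrderAt_ne_top_of_isPreconnected (hray_preconnected z)
    (⟨B, (le_max_right _ _ : (0 : ℝ) ≤ B), rfl⟩ : z + (B : ℂ) ∈ hray z) ⟨x, hx, rfl⟩ ?_
  rw [D.order_right (by
    rw [Complex.add_re, Complex.ofReal_re]
    have := le_max_left (A - z.re + 1) 0
    rw [← hB] at this
    linarith)]
  exact WithTop.zero_ne_top

/-- the conjugate function -/
theorem conj_data {g : ℂ → ℂ} {x : ℝ} {n : ℤ} (hg : MeromorphicAt g (x : ℂ))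
    (hn : meromorphicOrderAt g (x : ℂ) = n) (h0 : meromorphicTrailingCoeffAt g (x : ℂ) ≠ 0) :
    MeromorphicAt (fun s => conj (g (conj s))) (x : ℂ) ∧
      meromorphicOrderAt (fun s => conj (g (conj s))) (x : ℂ) = n ∧
      meromorphicTrailingCoeffAt (fun s => conj (g (conj s))) (x : ℂ) =
        conj (meromorphicTrailingCoeffAt g (x : ℂ)) := by
  have hcx : conj (x : ℂ) = (x : ℂ) := Complex.conj_ofReal x
  have hm : MeromorphicAt (fun s => conj (g (conj s))) (x : ℂ) := mero_conj (by rwa [hcx])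
  refine ⟨hm, order_of_lim hm (by simpa using h0) ?_⟩
  have h1 := lim_of_order hg hn rfl
  have h2 : Tendsto (fun s : ℂ => conj s) (𝓝[≠] (x : ℂ)) (𝓝[≠] (x : ℂ)) := by
    rw [tendsto_nhdsWithin_iff]
    constructor
    · have := (Complex.continuous_conj.tendsto (x : ℂ))
      rw [Complex.conj_ofReal] at this
      exact this.mono_left nhdsWithin_le_nhds
    · filter_upwards [self_mem_nhdsWithin] with w hw
      intro h3
      apply hw
      rw [mem_singleton_iff] at h3 ⊢
      rw [← Complex.conj_conj w, h3, hcx]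
  have h3 := (Complex.continuous_conj.tendsto _).comp (h1.comp h2)
  refine h3.congr fun s => ?_
  simp only [Function.comp_apply, map_mul, map_zpow₀, map_sub, Complex.conj_conj, hcx]

/-- the coefficients at the point `z` -/
noncomputable def coffc (lam : ι → ℝ) (c : ι → ℂ) (z : ℂ) (i : ι) : ℝ :=
  (c i * Complex.exp (-(z * lam i))).re

theorem coffc_le (z : ℂ) (i : ι) : |coffc lam c z i| ≤ ‖c i‖ * Real.exp (-(z.re * lam i)) := by
  refine (Complex.abs_re_le_norm _).trans ?_
  rw [norm_mul, norm_expo]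

/-- the number of the zeros minus the number of the poles on the open half line
`{z + x : x > 0}` -/
noncomputable def rayZ (F : ℂ → ℂ) (z : ℂ) : ℤ :=
  ∑ᶠ x ∈ Ioi (0 : ℝ), (meromorphicOrderAt F (z + x)).untop₀

/-- **The rotated law at an arbitrary point of the plane, complex coefficients.** -/
theorem CDS.off [Countable ι] (D : CDS A lam c F) (z : ℂ)
    (hmer : ∀ x : ℝ, 0 ≤ x → MeromorphicAt F (z + x)) {γ : ℝ} (hγ : Real.pi / 2 < γ) :
    ∃ (n : ℤ) (l : ℂ), meromorphicOrderAt F z = n ∧
      meromorphicTrailingCoeffAt F z = l ∧ l ≠ 0 ∧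
      (fun T : ℝ => cmean lam (coffc lam c z) γ T - (-n * (Real.log T - Lam γ) +
        Real.log ‖l‖ - Real.pi * rayZ F z * Complex.I)) =O[atTop] (fun T : ℝ => 1 / T) := by
  have hmer0 : MeromorphicAt F z := by
    have := hmer 0 le_rfl
    rwa [Complex.ofReal_zero, add_zero] at this
  have htop0 : meromorphicOrderAt F z ≠ ⊤ := by
    have := D.ne_top hmer (x := 0) le_rfl
    rwa [Complex.ofReal_zero, add_zero] at this
  obtain ⟨n, hn⟩ := WithTop.ne_top_iff_exists.1 htop0
  have hn := hn.symm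
  set l := meromorphicTrailingCoeffAt F z with hl
  have hl0 : l ≠ 0 := hmer0.meromorphicTrailingCoeffAt_ne_zero htop0
  set g : ℂ → ℂ := fun w => F (z + w) with hg
  have hlin : ∀ w : ℂ, AnalyticAt ℂ (fun s => z + s) w := fun w => by fun_prop
  have hm1 : ∀ x : ℝ, 0 ≤ x → MeromorphicAt g (x : ℂ) := fun x hx =>
    MeromorphicAt.comp_analyticAt (f := F) (g := fun s => z + s) (hmer x hx) (hlin _)
  have hgord : ∀ x : ℂ, meromorphicOrderAt g x = meromorphicOrderAt F (z + x) := fun x =>
    order_sh F z x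
  have hgdat : ∀ x : ℝ, 0 ≤ x → ∃ k : ℤ, meromorphicOrderAt g (x : ℂ) = k ∧
      meromorphicTrailingCoeffAt g (x : ℂ) ≠ 0 := by
    intro x hx
    have h1 : meromorphicOrderAt g (x : ℂ) ≠ ⊤ := by
      rw [hgord]
      exact D.ne_top hmer hx
    obtain ⟨k, hk⟩ := WithTop.ne_top_iff_exists.1 h1
    exact ⟨k, hk.symm, (hm1 x hx).meromorphicTrailingCoeffAt_ne_zero h1⟩
  set Φ : ℂ → ℂ := fun w => g w * conj (g (conj w)) with hΦ
  have hordx : ∀ x : ℝ, 0 ≤ x → ∃ k : ℤ, meromorphicOrderAt F (z + x) = k ∧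
      meromorphicOrderAt Φ (x : ℂ) = ((2 * k : ℤ) : WithTop ℤ) := by
    intro x hx
    obtain ⟨k, hk, hk0⟩ := hgdat x hx
    obtain ⟨h2, h3, -⟩ := conj_data (hm1 x hx) hk hk0
    refine ⟨k, by rw [← hgord, hk], ?_⟩
    rw [hΦ, fun_meromorphicOrderAt_mul (hm1 x hx) h2, hk, h3, ← WithTop.coe_add, two_mul]
  set B : ℝ := max (A - z.re) 1 with hB
  have hB0 : 0 < B := lt_of_lt_of_le one_pos (le_max_right _ _)
  have hBA : A - z.re ≤ B := le_max_left _ _
  obtain ⟨m, r₀, C, T₀, h1, h2, h3, h4⟩ := rot_scale (lam := lam)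
    (c := fun i => 2 * coffc lam c z i) (Φ := Φ) hB0 D.lam_nonneg
    (fun σ hσ => by
      refine Summable.of_nonneg_of_le (fun i => by positivity) (fun i => ?_)
        ((D.sum (z.re + σ) (by linarith)).mul_left 2)
      have h6 : Real.exp (-((z.re + σ) * lam i)) =
          Real.exp (-(z.re * lam i)) * Real.exp (-(σ * lam i)) := by
        rw [← Real.exp_add]; congr 1; ring
      rw [abs_mul, abs_two, h6, mul_assoc, ← mul_assoc ‖c i‖]
      have h5 := coffc_le (lam := lam) (c := c) z i
      gcongr)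
    (fun x hx => by
      obtain ⟨k, hk, hk0⟩ := hgdat x hx.1
      exact (hm1 x hx.1).mul (conj_data (hm1 x hx.1) hk hk0).1)
    (fun w hw => by
      have hA1 : A < (z + w).re := by rw [Complex.add_re]; linarith
      have hA2 : A < (z + conj w).re := by rw [Complex.add_re, Complex.conj_re]; linarith
      show F (z + w) * conj (F (z + conj w)) = _
      rw [D.eq _ hA1, D.eq _ hA2, ← Complex.exp_conj, ← Complex.exp_add]
      congr 1
      unfold ser cser
      rw [Complex.conj_tsum]
      have hs2 : Summable fun i => conj (c i * Complex.exp (-((z + conj w) * lam i))) :=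
        (Complex.summable_conj.2 (D.csum hA2))
      rw [← (D.csum hA1).tsum_add hs2]
      refine tsum_congr fun i => ?_
      have e0 : (((2 * coffc lam c z i : ℝ)) : ℂ) = c i * Complex.exp (-(z * lam i)) +
          conj (c i * Complex.exp (-(z * lam i))) := by
        rw [Complex.add_conj]
        rfl
      rw [e0, map_mul, map_mul, ← Complex.exp_conj, ← Complex.exp_conj]
      simp only [map_neg, map_mul, map_add, Complex.conj_conj, Complex.conj_ofReal]
      have e1 : Complex.exp (-((z + w) * (lam i : ℂ))) =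
          Complex.exp (-(z * lam i)) * Complex.exp (-(w * lam i)) := by
        rw [← Complex.exp_add]; congr 1; ring
      have e2 : Complex.exp (-((conj z + w) * (lam i : ℂ))) =
          Complex.exp (-(conj z * lam i)) * Complex.exp (-(w * lam i)) := by
        rw [← Complex.exp_add]; congr 1; ring
      rw [e1, e2]
      ring) hγ
  -- the order
  have hord0 : meromorphicOrderAt Φ 0 = ((2 * n : ℤ) : WithTop ℤ) := by
    obtain ⟨k, hk, hk2⟩ := hordx 0 le_rfl
    rw [Complex.ofReal_zero, add_zero, hn] at hk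
    rw [Complex.ofReal_zero] at hk2
    have : n = k := by exact_mod_cast hk
    rw [this, hk2]
  rw [hord0] at h1
  have hmn : 2 * n = m := by exact_mod_cast h1
  -- the leading coefficient
  have hg0 : meromorphicTrailingCoeffAt g 0 = l := coeff_sh F z
  have hcoef : meromorphicTrailingCoeffAt Φ 0 = ((‖l‖ ^ 2 : ℝ) : ℂ) := by
    obtain ⟨k, hk, hk0⟩ := hgdat 0 le_rfl
    obtain ⟨h5, -, h6⟩ := conj_data (hm1 0 le_rfl) hk hk0
    have h7 := hm1 0 le_rfl
    rw [Complex.ofReal_zero] at h5 h6 h7
    have h8 : Φ = g * (fun s => conj (g (conj s))) := rfl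
    rw [h8, MeromorphicAt.meromorphicTrailingCoeffAt_mul h7 h5, h6, hg0, Complex.mul_conj,
      Complex.normSq_eq_norm_sq]
  rw [hcoef] at h2
  have hlpos : 0 < ‖l‖ := norm_pos_iff.2 hl0
  have hre : r₀.re = 2 * Real.log ‖l‖ := by
    have h5 := congrArg norm h2
    rw [Complex.norm_exp, Complex.norm_real, Real.norm_of_nonneg (by positivity)] at h5
    have h6 := congrArg Real.log h5
    rw [Real.log_exp, Real.log_pow] at h6
    rw [h6]
    norm_num
  -- the number of zeros
  have hN : (∑ᶠ x ∈ Ioc (0 : ℝ) B, (meromorphicOrderAt Φ (x : ℂ)).untop₀ : ℤ) =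
      2 * rayZ F z := by
    have h5 : ∀ x : ℝ, 0 ≤ x → (meromorphicOrderAt Φ (x : ℂ)).untop₀ =
        2 * (meromorphicOrderAt F (z + x)).untop₀ := by
      intro x hx
      obtain ⟨k, hk, hk2⟩ := hordx x hx
      rw [hk, hk2]
      rfl
    have h6 : (∑ᶠ x ∈ Ioc (0 : ℝ) B, (meromorphicOrderAt Φ (x : ℂ)).untop₀) =
        ∑ᶠ x ∈ Ioi (0 : ℝ), (meromorphicOrderAt Φ (x : ℂ)).untop₀ := by
      refine (finsum_mem_inter_support_eq' _ _ _ fun σ hσ => ?_).symm
      rw [Function.mem_support] at hσ
      constructor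
      · intro h
        have h' : (0 : ℝ) < σ := h
        refine ⟨h, ?_⟩
        by_contra h7
        push Not at h7
        apply hσ
        rw [h5 σ h'.le, D.order_right (s := z + σ) (by
          rw [Complex.add_re, Complex.ofReal_re]; linarith)]
        rfl
      · exact fun h => h.1
    rw [h6]
    unfold rayZ
    rw [← smul_eq_mul, smul_finsum]
    refine finsum_congr fun x => ?_
    rw [smul_finsum]
    refine finsum_congr fun hx => ?_
    rw [h5 x (le_of_lt hx), smul_eq_mul]
  rw [hN] at h3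
  have hr0 : r₀ = 2 * (Real.log ‖l‖ - Real.pi * rayZ F z * Complex.I) := by
    apply Complex.ext
    · rw [hre]
      simp
    · rw [h3]
      simp
      ring
  refine ⟨n, l, hn, rfl, hl0, ?_⟩
  refine Asymptotics.IsBigO.of_bound (C / 2) ?_
  filter_upwards [eventually_ge_atTop T₀, eventually_gt_atTop 0] with T hT hT1
  have h5 := h4 T hT
  rw [Real.norm_eq_abs, abs_of_pos (by positivity : 0 < 1 / T), mul_one_div]
  have h6 : cmean lam (fun i => 2 * coffc lam c z i) γ T =
      2 * cmean lam (coffc lam c z) γ T := by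
    unfold cmean
    rw [← tsum_mul_left]
    refine tsum_congr fun i => ?_
    push_cast
    ring
  rw [h6, hr0, ← hmn] at h5
  have h7 : -(2 * cmean lam (coffc lam c z) γ T) - (((2 * n : ℤ) : ℂ) * (↑(Real.log T) - Lam γ) -
      2 * (↑(Real.log ‖l‖) - ↑Real.pi * ↑(rayZ F z) * Complex.I)) =
      (-2 : ℂ) * (cmean lam (coffc lam c z) γ T - (-↑n * (↑(Real.log T) - Lam γ) +
        ↑(Real.log ‖l‖) - ↑Real.pi * ↑(rayZ F z) * Complex.I)) := by
    push_cast
    ring
  rw [h7, norm_mul] at h5
  have h8 : ‖(-2 : ℂ)‖ = 2 := by rw [norm_neg]; norm_num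
  rw [h8] at h5
  rw [div_div, mul_comm 2 T, ← div_div]
  linarith

end Pool.Agent.U252.RM
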